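import Pool.Agent.Lib.MP_89fcdb_gt.Interfaces

/-!
# MP_89fcdb_gt, module CAT: small category of the orbit space gives an odd map
-/

open scoped BigOperators unitInterval
open Set Topology Pool.Agent.Lib.MP_904b2a_gt

namespace Pool.Agent.Lib.MP_89fcdb_gt.H71

noncomputable section

variable {X : Type} [TopologicalSpace X] (T : Invol X)

theorem proj_tau (x : X) : T.proj (T.τ x) = T.proj x := by
  apply Quotient.sound
  exact Or.inr (T.sq x).symm

theorem proj_eq {x y : X} (h : T.proj x = T.proj y) : x = y ∨ x = T.τ y := by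
  have h1 : T.setoid.r x y := Quotient.exact h
  rcases h1 with h1 | h1
  · exact Or.inl h1.symm
  · right
    rw [h1, T.sq]

/-- The data obtained from one contractible open set: an open invariant set `V`, a homotopy `G`
lifting the contraction, a sign. -/
theorem one_set (hcov : IsCoveringMap T.proj) (U : Set T.Q) (hc : ContractibleIn U) :
    ∃ (G : C(I × (T.proj ⁻¹' U : Set X), X)) (z : X),
      (∀ a, G (0, a) = a.1) ∧ (∀ a, G (1, a) = z ∨ G (1, a) = T.τ z) ∧
      ∀ (x : X) (h1 : x ∈ T.proj ⁻¹' U) (h2 : T.τ x ∈ T.proj ⁻¹' U) (t : I),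
        G (t, ⟨T.τ x, h2⟩) = T.τ (G (t, ⟨x, h1⟩)) := by
  obtain ⟨y, ⟨F⟩⟩ := hc
  let π : C((T.proj ⁻¹' U : Set X), U) := ⟨fun a => ⟨T.proj a.1, a.2⟩, by fun_prop⟩
  let H : C(I × (T.proj ⁻¹' U : Set X), T.Q) := ⟨fun p => F (p.1, π p.2), by fun_prop⟩
  let i₀ : C((T.proj ⁻¹' U : Set X), X) := ⟨Subtype.val, continuous_subtype_val⟩
  have H0 : ∀ a, H (0, a) = T.proj (i₀ a) := by
    intro a
    change F (0, π a) = _
    rw [F.apply_zero]
    rfl
  let G := hcov.liftHomotopy H i₀ H0
  have hG : ∀ p, T.proj (G p) = H p := fun p => congrFun (hcov.liftHomotopy_lifts H i₀ H0) p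
  have hG0 : ∀ a, G (0, a) = a.1 := fun a => hcov.liftHomotopy_zero H i₀ H0 a
  obtain ⟨z, hz⟩ := Quotient.exists_rep y
  refine ⟨G, z, hG0, ?_, ?_⟩
  · intro a
    apply proj_eq
    rw [hG]
    change F (1, π a) = _
    rw [F.apply_one]
    exact hz.symm
  · intro x h1 h2 t
    let τU : (T.proj ⁻¹' U : Set X) → (T.proj ⁻¹' U : Set X) := fun a =>
      ⟨T.τ a.1, by
        change T.proj (T.τ a.1) ∈ U
        rw [proj_tau]
        exact a.2⟩
    have hτU : Continuous τU := by
      apply Continuous.subtype_mk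
      exact T.τ.continuous.comp continuous_subtype_val
    have key : (fun p : I × (T.proj ⁻¹' U : Set X) => T.τ (G (p.1, τU p.2))) =
        hcov.liftHomotopy H i₀ H0 := by
      rw [hcov.eq_liftHomotopy_iff H0]
      refine ⟨?_, ?_, ?_⟩
      · intro a
        exact T.τ.continuous.comp (G.continuous.comp (by fun_prop))
      · funext p
        change T.proj (T.τ (G (p.1, τU p.2))) = H p
        rw [proj_tau, hG]
        change F (p.1, π (τU p.2)) = F (p.1, π p.2)
        congr 2
        apply Subtype.ext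
        exact proj_tau T p.2.1
      · intro a
        change T.τ (G (0, τU a)) = a.1
        rw [hG0]
        exact T.sq a.1
    have h3 := congrFun key (t, ⟨x, h1⟩)
    have h4 : T.τ (G (t, ⟨T.τ x, h2⟩)) = G (t, ⟨x, h1⟩) := h3
    rw [← h4, T.sq]

/-- The signed bump function attached to one set. -/
theorem one_fun [T2Space X] (hcov : IsCoveringMap T.proj) (U : Set T.Q) (hU : IsOpen U)
    (hc : ContractibleIn U) (ρ : C(T.Q, ℝ)) (hρ : tsupport ρ ⊆ U) (hρ0 : ∀ y, 0 ≤ ρ y) :
    ∃ f : X → ℝ, Continuous f ∧ (∀ x, f (T.τ x) = -f x) ∧ (∀ x, |f x| = ρ (T.proj x)) ∧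
      ∀ A : Set X, (∀ x ∈ A, 0 < f x) →
        (⟨Subtype.val, continuous_subtype_val⟩ : C(A, X)).Nullhomotopic := by
  classical
  have hone := one_set T hcov U hc
  obtain ⟨V, hV⟩ : ∃ V : Set X, V = T.proj ⁻¹' U := ⟨_, rfl⟩
  rw [← hV] at hone
  obtain ⟨G, z, hG0, hG1, hGτ⟩ := hone
  have hVo : IsOpen V := hV ▸ hU.preimage T.proj.continuous
  let G1 : V → X := fun a => G (1, a)
  have hG1c : Continuous G1 := G.continuous.comp (by fun_prop)
  let C : Set V := G1 ⁻¹' {z}
  have hC : IsClopen C := by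
    refine ⟨isClosed_singleton.preimage hG1c, ?_⟩
    have h1 : C = (G1 ⁻¹' {T.τ z})ᶜ := by
      ext a
      simp only [C, mem_preimage, mem_singleton_iff, mem_compl_iff]
      constructor
      · intro h h'
        rw [h] at h'
        exact T.free z h'.symm
      · intro h
        exact (hG1 a).resolve_right h
    rw [h1]
    exact (isClosed_singleton.preimage hG1c).isOpen_compl
  let e : V → ℝ := C.piecewise (fun _ => 1) (fun _ => -1)
  have he : Continuous e := by
    apply Continuous.piecewise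
    · intro a ha
      rw [hC.frontier_eq] at ha
      exact absurd ha (by simp)
    · exact continuous_const
    · exact continuous_const
  have he1 : ∀ a, |e a| = 1 := by
    intro a
    by_cases ha : a ∈ C
    · simp [e, ha]
    · simp [e, ha]
  let f : X → ℝ := fun x => if h : x ∈ V then e ⟨x, h⟩ * ρ (T.proj x) else 0
  have hfV : ∀ (x : X) (h : x ∈ V), f x = e ⟨x, h⟩ * ρ (T.proj x) := fun x h => dif_pos h
  have hfn : ∀ x, x ∉ V → f x = 0 := fun x h => dif_neg h
  have hVτ : ∀ x, x ∈ V → T.τ x ∈ V := by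
    intro x hx
    rw [hV] at hx ⊢
    change T.proj (T.τ x) ∈ U
    rw [proj_tau]
    exact hx
  have hρ1 : ∀ x, x ∉ V → ρ (T.proj x) = 0 := by
    intro x hx
    by_contra h
    apply hx
    rw [hV]
    exact hρ (subset_tsupport _ h)
  refine ⟨f, ?_, ?_, ?_, ?_⟩
  · rw [continuous_iff_continuousAt]
    intro x
    by_cases hx : x ∈ V
    · have h1 : ContinuousOn f V := by
        rw [continuousOn_iff_continuous_domRestrict]
        have h2 : V.domRestrict f = fun a : V => e a * ρ (T.proj a.1) := by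
          funext a
          exact hfV a.1 a.2
        rw [h2]
        exact he.mul (ρ.continuous.comp (T.proj.continuous.comp continuous_subtype_val))
      exact h1.continuousAt (hVo.mem_nhds hx)
    · have h1 : T.proj ⁻¹' (tsupport ρ)ᶜ ∈ 𝓝 x := by
        apply (((isClosed_tsupport _).isOpen_compl).preimage T.proj.continuous).mem_nhds
        intro h
        apply hx
        rw [hV]
        exact hρ h
      have h2 : f =ᶠ[𝓝 x] fun _ => 0 := by
        filter_upwards [h1] with w hw
        by_cases hwV : w ∈ V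
        · rw [hfV w hwV]
          have h3 : ρ (T.proj w) = 0 := by
            by_contra h
            exact hw (subset_tsupport _ h)
          rw [h3, mul_zero]
        · exact hfn w hwV
      exact continuousAt_const.congr h2.symm
  · intro x
    by_cases hx : x ∈ V
    · rw [hfV x hx, hfV _ (hVτ x hx), proj_tau]
      have h1 : e ⟨T.τ x, hVτ x hx⟩ = -e ⟨x, hx⟩ := by
        have h2 : G1 ⟨T.τ x, hVτ x hx⟩ = T.τ (G1 ⟨x, hx⟩) := hGτ x hx (hVτ x hx) 1
        by_cases ha : G1 ⟨x, hx⟩ = z
        · have h3 : (⟨x, hx⟩ : V) ∈ C := ha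
          have h4 : (⟨T.τ x, hVτ x hx⟩ : V) ∉ C := by
            intro h
            have h5 : G1 ⟨T.τ x, hVτ x hx⟩ = z := h
            rw [h2, ha] at h5
            exact T.free z h5
          simp [e, h3, h4]
        · have h3 : (⟨x, hx⟩ : V) ∉ C := ha
          have h4 : (⟨T.τ x, hVτ x hx⟩ : V) ∈ C := by
            change G1 ⟨T.τ x, hVτ x hx⟩ = z
            have h5 : G1 ⟨x, hx⟩ = T.τ z := (hG1 ⟨x, hx⟩).resolve_left ha
            rw [h2, h5, T.sq]
          simp [e, h3, h4]
      rw [h1]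
      ring
    · have h1 : T.τ x ∉ V := by
        intro h
        apply hx
        have := hVτ _ h
        rwa [T.sq] at this
      rw [hfn x hx, hfn _ h1, neg_zero]
  · intro x
    by_cases hx : x ∈ V
    · rw [hfV x hx, abs_mul, he1, one_mul, abs_of_nonneg (hρ0 _)]
    · rw [hfn x hx, hρ1 x hx, abs_zero]
  · intro A hA
    have hAV : ∀ a : A, a.1 ∈ V := by
      intro a
      by_contra h
      have := hA a.1 a.2
      rw [hfn _ h] at this
      exact lt_irrefl _ this
    have hAz : ∀ a : A, G1 ⟨a.1, hAV a⟩ = z := by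
      intro a
      by_contra h
      have h1 := hA a.1 a.2
      have h2 : (⟨a.1, hAV a⟩ : V) ∉ C := h
      rw [hfV _ (hAV a)] at h1
      have h3 : e ⟨a.1, hAV a⟩ = -1 := by simp [e, h2]
      rw [h3] at h1
      have := hρ0 (T.proj a.1)
      linarith
    let j : C(A, V) := ⟨fun a => ⟨a.1, hAV a⟩, by fun_prop⟩
    refine ⟨z, ⟨{ toFun := fun p => G (p.1, j p.2)
                  continuous_toFun := by fun_prop
                  map_zero_left := ?_
                  map_one_left := ?_ }⟩⟩
    · intro a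
      exact hG0 (j a)
    · intro a
      exact hAz a

theorem odd_map [T2Space X] (n : ℕ) (hcov : IsCoveringMap T.proj) [CompactSpace T.Q] [T2Space T.Q]
    (hcat : CatLE T.Q n) :
    ∃ φ : C(X, ES n), (∀ p, φ (T.τ p) = -φ p) ∧
      (ContinuousMap.mk (Subtype.val : {p : X | 0 < (φ p).1 (Fin.last n)} → X)
        continuous_subtype_val).Nullhomotopic := by
  classical
  obtain ⟨U, hUo, hUc, hU⟩ := hcat
  obtain ⟨ρ, hρ⟩ := PartitionOfUnity.exists_isSubordinate isClosed_univ U hUo hU.ge
  choose f hfc hfτ hfa hfA using fun i =>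
    one_fun T hcov (U i) (hUo i) (hUc i) (ρ i) (hρ i) (ρ.nonneg i)
  let v : X → EuclideanSpace ℝ (Fin (n + 1)) := fun x => WithLp.toLp 2 (fun i => f i x)
  have hv : Continuous v := by
    apply (PiLp.continuous_toLp 2 _).comp
    exact continuous_pi fun i => hfc i
  have hv0 : ∀ x, v x ≠ 0 := by
    intro x h
    obtain ⟨i, hi⟩ := ρ.exists_pos (mem_univ (T.proj x))
    have h1 : f i x = 0 := by
      have := congrArg (fun w : EuclideanSpace ℝ (Fin (n + 1)) => w i) h
      simpa [v] using this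
    have h2 := hfa i x
    rw [h1, abs_zero] at h2
    rw [← h2] at hi
    exact lt_irrefl _ hi
  have hvn : ∀ x, 0 < ‖v x‖ := fun x => norm_pos_iff.mpr (hv0 x)
  let φ : C(X, ES n) := ⟨fun x => ⟨(‖v x‖)⁻¹ • v x, by
    rw [mem_sphere_zero_iff_norm, norm_smul, norm_inv, norm_norm,
      inv_mul_cancel₀ (hvn x).ne']⟩, by
    apply Continuous.subtype_mk
    exact (hv.norm.inv₀ fun x => (hvn x).ne').smul hv⟩
  have hvτ : ∀ x, v (T.τ x) = -v x := by
    intro x
    ext i
    simp [v, hfτ]
  refine ⟨φ, ?_, ?_⟩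
  · intro p
    apply Subtype.ext
    change (‖v (T.τ p)‖)⁻¹ • v (T.τ p) = -((‖v p‖)⁻¹ • v p)
    rw [hvτ, norm_neg, smul_neg]
  · apply hfA (Fin.last n)
    intro x hx
    have h1 : 0 < (‖v x‖)⁻¹ * f (Fin.last n) x := hx
    exact (mul_pos_iff_of_pos_left (inv_pos.mpr (hvn x))).mp h1

theorem catN (hQ : QuotStatement) (hT : TopStatement) : CatNStatement := by
  intro hcat
  have := hT.2.1.1
  obtain ⟨h1, h2, -, h4, -⟩ := hQ P TP
  exact odd_map TP 5 h4 hcat

end

end Pool.Agent.Lib.MP_89fcdb_gt.H71
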