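import Pool.Agent.Lib.MP_89fcdb_gt.H71.Cat

/-!
# MP_89fcdb_gt, module TC: the part `q₁ ≠ 0` of `RP³`
-/

open scoped BigOperators
open Set Topology Pool.Agent.Lib.MP_904b2a_gt

namespace Pool.Agent.Lib.MP_89fcdb_gt.H71

noncomputable section

/-- The complex number with given real and imaginary part. -/
def zt (t : Fin 2 → ℝ) : ℂ := (t 0 : ℂ) + (t 1 : ℂ) * Complex.I

theorem continuous_zt : Continuous zt := by
  unfold zt
  fun_prop

/-- The inverse of `zt`. -/
def tz (z : ℂ) : Fin 2 → ℝ := ![z.re, z.im]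

theorem continuous_tz : Continuous tz := by
  unfold tz
  apply continuous_pi
  intro i
  fin_cases i
  · exact Complex.continuous_re
  · exact Complex.continuous_im

theorem tz_zt (t : Fin 2 → ℝ) : tz (zt t) = t := by
  funext i
  fin_cases i <;> simp [tz, zt]

theorem zt_tz (z : ℂ) : zt (tz z) = z := by
  simp [tz, zt]

theorem zt_zero_iff (t : Fin 2 → ℝ) : zt t = 0 ↔ t = 0 := by
  constructor
  · intro h
    rw [← tz_zt t, h]
    funext i
    fin_cases i <;> simp [tz]
  · rintro rfl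
    simp [zt]

/-- A complex number of norm one as a point of the circle. -/
def mkC (z : ℂ) (h : ‖z‖ = 1) : Circle := ⟨z, mem_sphere_zero_iff_norm.mpr h⟩

theorem coe_mkC (z : ℂ) (h : ‖z‖ = 1) : (mkC z h : ℂ) = z := rfl

theorem norm_dir {z : ℂ} (hz : z ≠ 0) : ‖z / (‖z‖ : ℂ)‖ = 1 := by
  rw [norm_div, Complex.norm_real, norm_norm, div_self]
  exact norm_ne_zero_iff.mpr hz

/-- The normalising factor. -/
def nf (z : ℂ) : ℝ := (Real.sqrt (1 + Complex.normSq z))⁻¹

theorem nf_pos (z : ℂ) : 0 < nf z := by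
  have := Complex.normSq_nonneg z
  unfold nf
  positivity

theorem nf_sq (z : ℂ) : nf z * nf z * (1 + Complex.normSq z) = 1 := by
  have h := Complex.normSq_nonneg z
  have h1 : 0 < 1 + Complex.normSq z := by linarith
  have h2 : Real.sqrt (1 + Complex.normSq z) ≠ 0 := (Real.sqrt_pos.mpr h1).ne'
  have h3 := Real.mul_self_sqrt h1.le
  unfold nf
  field_simp
  rw [pow_two, h3]

theorem continuous_nf : Continuous nf := by
  unfold nf
  apply Continuous.inv₀
  · apply Continuous.sqrt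
    exact continuous_const.add Complex.continuous_normSq
  · intro z
    have := Complex.normSq_nonneg z
    have h1 : 0 < 1 + Complex.normSq z := by linarith
    exact (Real.sqrt_pos.mpr h1).ne'

/-- The double cover of the parametrisation. -/
def JT : C(Circle × (Fin 2 → ℝ), S3) :=
  ⟨fun p => ⟨((nf (zt p.2) : ℂ) * (p.1 : ℂ), (nf (zt p.2) : ℂ) * ((p.1 : ℂ) * zt p.2)), by
    simp only [map_mul, Complex.normSq_ofReal, Circle.normSq_coe, one_mul, mul_one]
    have := nf_sq (zt p.2)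
    linear_combination this⟩, by
    have h1 := continuous_zt
    have h2 := continuous_nf
    fun_prop⟩

theorem JT_fst (c : Circle) (t : Fin 2 → ℝ) : (JT (c, t)).1.1 = (nf (zt t) : ℂ) * (c : ℂ) := rfl

theorem JT_snd (c : Circle) (t : Fin 2 → ℝ) :
    (JT (c, t)).1.2 = (nf (zt t) : ℂ) * ((c : ℂ) * zt t) := rfl

theorem JT_fst_ne (p : Circle × (Fin 2 → ℝ)) : (JT p).1.1 ≠ 0 := by
  have h1 : (nf (zt p.2) : ℂ) ≠ 0 := by exact_mod_cast (nf_pos _).ne'
  exact mul_ne_zero h1 p.1.coe_ne_zero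

theorem JT_ratio (p : Circle × (Fin 2 → ℝ)) : (JT p).1.2 / (JT p).1.1 = zt p.2 := by
  have h1 : (nf (zt p.2) : ℂ) ≠ 0 := by exact_mod_cast (nf_pos _).ne'
  have h2 := p.1.coe_ne_zero
  change (nf (zt p.2) : ℂ) * ((p.1 : ℂ) * zt p.2) / ((nf (zt p.2) : ℂ) * (p.1 : ℂ)) = _
  field_simp

theorem JT_dir (p : Circle × (Fin 2 → ℝ)) :
    (JT p).1.1 / (‖(JT p).1.1‖ : ℂ) = (p.1 : ℂ) := by
  have h1 : (nf (zt p.2) : ℂ) ≠ 0 := by exact_mod_cast (nf_pos _).ne'
  change (nf (zt p.2) : ℂ) * (p.1 : ℂ) / (‖(nf (zt p.2) : ℂ) * (p.1 : ℂ)‖ : ℂ) = _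
  rw [norm_mul, Circle.norm_coe, mul_one, Complex.norm_real, Real.norm_of_nonneg (nf_pos _).le]
  field_simp

/-- A point with first coordinate not zero is in the range. -/
theorem JT_surj (q : S3) (hq : q.1.1 ≠ 0) :
    ∃ c : Circle, (c : ℂ) = q.1.1 / (‖q.1.1‖ : ℂ) ∧ JT (c, tz (q.1.2 / q.1.1)) = q := by
  have hn : (‖q.1.1‖ : ℂ) ≠ 0 := by
    have : ‖q.1.1‖ ≠ 0 := norm_ne_zero_iff.mpr hq
    exact_mod_cast this
  refine ⟨mkC (q.1.1 / (‖q.1.1‖ : ℂ)) (norm_dir hq), rfl, ?_⟩
  have h2 : nf (q.1.2 / q.1.1) = ‖q.1.1‖ := by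
    have h3 := q.2
    have h4 : Complex.normSq q.1.1 = ‖q.1.1‖ * ‖q.1.1‖ := Complex.normSq_eq_norm_sq _ ▸ pow_two _
    have h5 : 0 < ‖q.1.1‖ := norm_pos_iff.mpr hq
    have h6 : 1 + Complex.normSq (q.1.2 / q.1.1) = (‖q.1.1‖⁻¹) ^ 2 := by
      rw [Complex.normSq_div, h4]
      rw [h4] at h3
      field_simp
      linarith
    unfold nf
    rw [h6, Real.sqrt_sq (inv_nonneg.mpr h5.le), inv_inv]
  apply Subtype.ext
  apply Prod.ext
  · rw [JT_fst, zt_tz, h2, coe_mkC]
    field_simp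
  · rw [JT_snd, zt_tz, h2, coe_mkC]
    field_simp

theorem JT_open : IsOpenMap JT := by
  intro W hW
  -- the inverse on the open set
  let Ω : Set S3 := {q | q.1.1 ≠ 0}
  have hΩ : IsOpen Ω := isOpen_ne.preimage (by fun_prop : Continuous fun q : S3 => q.1.1)
  let k : Ω → Circle × (Fin 2 → ℝ) := fun q =>
    (mkC (q.1.1.1 / (‖q.1.1.1‖ : ℂ)) (norm_dir q.2), tz (q.1.1.2 / q.1.1.1))
  have hk : Continuous k := by
    apply Continuous.prodMk
    · apply Continuous.subtype_mk
      apply Continuous.div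
      · fun_prop
      · fun_prop
      · intro q
        have : ‖q.1.1.1‖ ≠ 0 := norm_ne_zero_iff.mpr q.2
        exact_mod_cast this
    · apply continuous_tz.comp
      apply Continuous.div
      · fun_prop
      · fun_prop
      · intro q
        exact q.2
  have h1 : JT '' W = Subtype.val '' (k ⁻¹' W) := by
    ext q
    constructor
    · rintro ⟨p, hp, rfl⟩
      refine ⟨⟨JT p, JT_fst_ne p⟩, ?_, rfl⟩
      change k _ ∈ W
      have h2 : k ⟨JT p, JT_fst_ne p⟩ = p := by
        apply Prod.ext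
        · apply Circle.ext
          exact JT_dir p
        · change tz _ = _
          rw [JT_ratio, tz_zt]
      rw [h2]
      exact hp
    · rintro ⟨q', hq', rfl⟩
      obtain ⟨c, hc, hJ⟩ := JT_surj q'.1 q'.2
      refine ⟨k q', hq', ?_⟩
      rw [← hJ]
      have h2 : k q' = (c, tz (q'.1.1.2 / q'.1.1.1)) := by
        apply Prod.ext
        · apply Circle.ext
          exact hc.symm
        · rfl
      rw [h2]
  rw [h1]
  exact hΩ.isOpenMap_subtype_val _ (hW.preimage hk)

theorem proj_open {X : Type} [TopologicalSpace X] (T : Invol X) : IsOpenMap T.proj := by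
  intro W hW
  have h1 : IsOpen (T.proj ⁻¹' (T.proj '' W)) := by
    have h2 : T.proj ⁻¹' (T.proj '' W) = W ∪ T.τ ⁻¹' W := by
      ext x
      constructor
      · rintro ⟨y, hy, hxy⟩
        have h3 : T.setoid.r y x := Quotient.exact hxy
        rcases h3 with h3 | h3
        · left
          rw [h3]
          exact hy
        · right
          rw [mem_preimage, h3, T.sq]
          exact hy
      · rintro (hx | hx)
        · exact ⟨x, hx, rfl⟩
        · refine ⟨T.τ x, hx, ?_⟩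
          apply Quotient.sound
          exact Or.inr (T.sq x).symm
    rw [h2]
    exact hW.union (hW.preimage T.τ.continuous)
  exact (isQuotientMap_quotient_mk'.isOpen_preimage).mp h1

/-- The squaring map on the circle times the identity. -/
def sqT : C(Circle × (Fin 2 → ℝ), Circle × (Fin 2 → ℝ)) :=
  ⟨fun p => (p.1 * p.1, p.2), by fun_prop⟩

theorem circle_sqrt (w : Circle) : ∃ c : Circle, c * c = w := by
  refine ⟨Circle.exp (Complex.arg w / 2), ?_⟩
  rw [← Circle.exp_add, add_halves]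
  exact Circle.exp_arg w

theorem circle_sq_eq {c d : Circle} (h : c * c = d * d) :
    (c : ℂ) = d ∨ (c : ℂ) = -d := by
  have h1 : (c : ℂ) * c = d * d := by
    have := congrArg (fun x : Circle => (x : ℂ)) h
    simpa using this
  exact mul_self_eq_mul_self_iff.mp h1

theorem sqT_quot : IsQuotientMap sqT := by
  have h1 : IsProperMap (fun c : Circle => c * c) := Continuous.isProperMap (by fun_prop)
  have h2 : IsProperMap sqT := h1.prodMap isProperMap_id
  apply h2.isClosedMap.isQuotientMap sqT.continuous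
  rintro ⟨w, t⟩
  obtain ⟨c, hc⟩ := circle_sqrt w
  exact ⟨(c, t), Prod.ext hc rfl⟩

/-- `proj ∘ JT` -/
def PJ : C(Circle × (Fin 2 → ℝ), RP3) := TS3.proj.comp JT

theorem JT_neg {c d : Circle} (h : (c : ℂ) = -d) (t : Fin 2 → ℝ) :
    JT (c, t) = TS3.τ (JT (d, t)) := by
  apply Subtype.ext
  apply Prod.ext
  · change (nf (zt t) : ℂ) * (c : ℂ) = -((nf (zt t) : ℂ) * (d : ℂ))
    rw [h]
    ring
  · change (nf (zt t) : ℂ) * ((c : ℂ) * zt t) = -((nf (zt t) : ℂ) * ((d : ℂ) * zt t))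
    rw [h]
    ring

theorem PJ_fac : Function.FactorsThrough PJ sqT := by
  rintro ⟨c, t⟩ ⟨d, t'⟩ h
  have h1 : c * c = d * d := congrArg Prod.fst h
  have h2 : t = t' := congrArg Prod.snd h
  subst h2
  rcases circle_sq_eq h1 with h3 | h3
  · rw [Circle.ext h3]
  · change TS3.proj (JT (c, t)) = TS3.proj (JT (d, t))
    rw [JT_neg h3, proj_tau]

/-- The parametrisation. -/
def jT : C(Circle × (Fin 2 → ℝ), RP3) := sqT_quot.lift PJ PJ_fac

theorem jT_sq (c : Circle) (t : Fin 2 → ℝ) : jT (c * c, t) = TS3.proj (JT (c, t)) := by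
  have := DFunLike.congr_fun (sqT_quot.lift_comp PJ PJ_fac) (c, t)
  exact this

theorem jT_eq {w : Circle} {t : Fin 2 → ℝ} {q : S3} (h : jT (w, t) = TS3.proj q) :
    ∃ c : Circle, c * c = w ∧ q = JT (c, t) := by
  obtain ⟨c, hc⟩ := circle_sqrt w
  rw [← hc, jT_sq] at h
  rcases proj_eq TS3 h with h1 | h1
  · exact ⟨c, hc, h1.symm⟩
  · refine ⟨-c, ?_, ?_⟩
    · rw [neg_mul_neg, hc]
    · have h2 : JT (-c, t) = TS3.τ (JT (c, t)) := JT_neg (by simp) t
      rw [h2, h1, TS3.sq]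

theorem tc : TrivRPStatement := by
  refine ⟨jT, ?_, ?_, ?_⟩
  · apply IsOpenEmbedding.of_continuous_injective_isOpenMap jT.continuous
    · rintro ⟨w, t⟩ ⟨w', t'⟩ h
      obtain ⟨c, hc⟩ := circle_sqrt w'
      rw [← hc, jT_sq] at h
      obtain ⟨d, hd, hJ⟩ := jT_eq h
      have h1 : t = t' := by
        have h2 := JT_ratio (c, t')
        rw [hJ, JT_ratio] at h2
        have h3 := congrArg tz h2
        rwa [tz_zt, tz_zt] at h3
      have h2 : c = d := by
        apply Circle.ext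
        rw [← JT_dir (c, t'), hJ, JT_dir]
      subst h1
      rw [← hc, ← hd, h2]
    · intro W hW
      have h1 : jT '' W = TS3.proj '' (JT '' (sqT ⁻¹' W)) := by
        ext y
        constructor
        · rintro ⟨⟨w, t⟩, hp, rfl⟩
          obtain ⟨c, hc⟩ := circle_sqrt w
          refine ⟨JT (c, t), ⟨(c, t), ?_, rfl⟩, ?_⟩
          · change (c * c, t) ∈ W
            rw [hc]
            exact hp
          · rw [← jT_sq, hc]
        · rintro ⟨_, ⟨⟨c, t⟩, hp, rfl⟩, rfl⟩
          exact ⟨(c * c, t), hp, jT_sq c t⟩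
      rw [h1]
      exact proj_open TS3 _ (JT_open _ (hW.preimage sqT.continuous))
  · intro q
    constructor
    · rintro ⟨⟨w, t⟩, h⟩
      obtain ⟨c, -, hJ⟩ := jT_eq h
      rw [hJ]
      exact JT_fst_ne (c, t)
    · intro hq
      obtain ⟨c, -, hJ⟩ := JT_surj q hq
      exact ⟨(c * c, tz (q.1.2 / q.1.1)), by rw [jT_sq, hJ]⟩
  · intro q w t h
    obtain ⟨c, -, hJ⟩ := jT_eq h
    rw [hJ, JT_snd, ← zt_zero_iff]
    have h1 : (nf (zt t) : ℂ) ≠ 0 := by exact_mod_cast (nf_pos _).ne'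
    have h2 := c.coe_ne_zero
    constructor
    · intro h3
      rw [h3, mul_zero, mul_zero]
    · intro h3
      exact (mul_eq_zero.mp ((mul_eq_zero.mp h3).resolve_left h1)).resolve_left h2

end

end Pool.Agent.Lib.MP_89fcdb_gt.H71
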